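import Pool.Agent.Helper51.CX.St

set_option autoImplicit false

namespace Pool.Agent.Helper38.CX

open Pool.Agent.Helper51.CX

/-- Gap rows, for a point which is tight at the narrow row and at both gap rows. -/
theorem tight_gap {K : Type} [Field K] [LinearOrder K] [IsStrictOrderedRing K] (j : ℕ) (h1 : 32 ≤ j) (h2 : j < 64)
    (z : Fin 6 → K) (ha : L (ga j) z = L j z) (hb : L (gb j) z = L j z) :
    ww j z = 0 ∧ 10 ^ 20 * pp j z = el j z := by
  obtain ⟨a1, a2, a3, a4, a5, _, a7, a8, _⟩ := hT1 j h2 h1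
  obtain ⟨_, _, _, _, _, b6⟩ := hT2' (ga j) a7
  obtain ⟨_, _, _, _, _, c6⟩ := hT2' (gb j) a8
  have e1 := L_sub j (ga j) (by omega) z
  have e2 := L_sub j (gb j) (by omega) z
  have n1 : ¬ (ga j = 65) := by omega
  have n2 : ¬ (gb j = 65) := by omega
  have v1' : (vx j (ga j) : K) = -((la j : K) * (fy j : K)) := by
    simp only [vx, if_neg n1]
    rw [a1]
    push_cast
    ring
  have v2' : (vy j (ga j) : K) = (la j : K) * (fx j : K) := by
    simp only [vy, if_neg n1]
    rw [a2]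
    push_cast
    ring
  have v3' : (vx j (gb j) : K) = (la j : K) * (fy j : K) := by
    simp only [vx, if_neg n2]
    rw [a3]
    push_cast
    ring
  have v4' : (vy j (gb j) : K) = -((la j : K) * (fx j : K)) := by
    simp only [vy, if_neg n2]
    rw [a4]
    push_cast
    ring
  rw [v1', v2', b6] at e1
  rw [v3', v4', c6] at e2
  have hla : (1 : K) ≤ (la j : K) := (la_bds j h1 h2).1
  have hla0 : (la j : K) ≠ 0 := by
    intro h
    rw [h] at hla
    linarith
  have f1 : (la j : K) * (10 ^ 40 * ww j z + (10 ^ 20 * pp j z - el j z)) = 0 := by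
    have : L j z - L (ga j) z = 0 := by rw [ha]; ring
    rw [this] at e1
    rw [e1]
    simp only [ww]
    push_cast
    ring
  have f2 : (la j : K) * (-(10 ^ 40 * ww j z) + (10 ^ 20 * pp j z - el j z)) = 0 := by
    have : L j z - L (gb j) z = 0 := by rw [hb]; ring
    rw [this] at e2
    rw [e2]
    simp only [ww]
    push_cast
    ring
  have g1 := (mul_eq_zero.1 f1).resolve_left hla0
  have g2 := (mul_eq_zero.1 f2).resolve_left hla0
  constructor
  · linarith
  · linarith

theorem hD1 : StTRA → StBDP → StBDD → StD1 := by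
  intro tra bdp bdd K _ _ _ j z d hz hf hj hga hgb k hk hkz hkz'
  have lo := hz.lo
  have hi := hz.hi
  have tj : L j (z + d) = 10 ^ 60 := by rw [L_add, hj, hz.tj, add_zero]
  have ta : L (ga j) (z + d) = 10 ^ 60 := by rw [L_add, hga, hz.ta, add_zero]
  have tb : L (gb j) (z + d) = 10 ^ 60 := by rw [L_add, hgb, hz.tb, add_zero]
  obtain ⟨w1, w2⟩ := tight_gap j lo hi (z + d) (by rw [ta, tj]) (by rw [tb, tj])
  have kj : k ≠ j := by
    rintro rfl
    rw [hz.tj] at hkz
    exact lt_irrefl _ hkz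
  have kga : k ≠ ga j := by
    rintro rfl
    rw [hz.ta] at hkz
    exact lt_irrefl _ hkz
  have kgb : k ≠ gb j := by
    rintro rfl
    rw [hz.tb] at hkz
    exact lt_irrefl _ hkz
  have t1 := tra K j lo hi k (by omega) kj kga kgb (z + d) (Or.inl ⟨hk, by rw [hkz', tj]⟩)
  obtain ⟨b5, _, bm, _⟩ := bdp K j lo hi (z + d) hf tj
  obtain ⟨c5, _, cm, _⟩ := bdp K j lo hi z hz.fe hz.tj
  obtain ⟨_, _, _, dd, _⟩ := bdd K j lo hi d
  obtain ⟨d1, d2⟩ := dd hj hga hgb
  have b5' : (z + d) 5 ≤ 1001 / 1000 := by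
    have := le_abs_self ((z + d) 5 - 1)
    linarith
  have c5' : z 5 ≤ 1001 / 1000 := by
    have := le_abs_self (z 5 - 1)
    linarith
  have p1 : 10 ^ 32 * |pp j (z + d)| ≤ 4 := by
    rw [w1, abs_zero, mul_zero, zero_add] at t1
    linarith
  have p2 := le_abs_self (pp j (z + d))
  have s2 := neg_abs_le ((v1 j : K) * z 2 - 1)
  have s3 := neg_abs_le ((v2 j : K) * z 3 - 1)
  have s4 := neg_abs_le ((v3 j : K) * z 4 - 1)
  have n2 := hz.n2
  have n3 := hz.n3
  have n4 := hz.n4
  have ez : el j z = (v1 j : K) * z 2 + (v2 j : K) * z 3 + (v3 j : K) * z 4 := rfl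
  have ea := el_add j z d
  have c1 : el j d ≤ -(2999 / 1000) := by
    linarith
  refine ⟨c1, ?_⟩
  intro l hl lj lga lgb hm
  have t2 := tra K j lo hi l hl lj lga lgb d (Or.inr ⟨hj, hm⟩)
  rw [d1, abs_zero, mul_zero, zero_add] at t2
  have m1 := mm_le z d
  have q1 := neg_abs_le (pp j d)
  linarith

end Pool.Agent.Helper38.CX
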